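import Pool.Agent.PTB.Sets

/-!
# The distribution of the rank in a class, with primitive recursive sets of primes
-/

set_option autoImplicit false

open NumberField IsDedekindDomain Finset
open scoped nonZeroDivisors Pointwise

namespace Pool.Agent.PTB

open Pool.Agent.Lib_helper18 Pool.Agent.Lib_helper18.Eis Pool.Agent.Lib_helper84.Cub
open Pool.Agent.PT Pool.Agent.PTE Pool.Agent.PT3 Pool.Agent.PTL Pool.Agent.PTN PRM

open CLN in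
/-- The primes `q = 2 (mod 3)` of a class with rank at least `t` are in a primitive recursive set. -/
theorem CLN_dec (hNBAS : Stmt_NBAS) (hESYT : ESYT) (hDCOT : DCOT) (hCLSC : CLSC)
    (hNBKN : Stmt_NBKN) (hBDG : Stmt_BDG) (hTENT : TENT) (hNADT : Stmt_NADT) :
    ∀ (h n m k : ℕ) (π : Fin m → PP) (p e : Fin m → ℕ) (r f : Fin k → ℕ)
      (w0 : ZMod 3) (c : Fin m → ZMod 3), NF n π p e r f → h ≤ 2 → ∀ t : ℕ,
      ∃ (M : ℕ) (W1 W2 : Set ℕ), DecP W1 ∧ DecP W2 ∧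
        (∀ q : ℕ, q.Prime → M < q → q ∈ WR h n π w0 c 2 1 t → q ∈ W1) ∧
        (∀ q : ℕ, q.Prime → M < q → q ∈ WR h n π w0 c 2 2 t → q ∈ W2) ∧
        ∃ K : ℝ, ∀ σ : ℝ, 1 < σ → σ ≤ 2 →
          BDENS.sm W1 σ + BDENS.sm W2 σ ≤
            LI (sN h n π p e r w0 c) (t - vN h n π p e r w0 c) / 3 ^ (m + 1) *
              Real.log (1 / (σ - 1)) + K := by
  classical
  intro h n m k π p e r f w0 c hNF hh t
  have hn0 : 0 < n := PT.FINA.pos_of_nf hNF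
  have hN0 : 0 < 3 ^ h * n := Nat.mul_pos (pow_pos (by norm_num) _) hn0
  have hBB : ∀ E q : ℕ, BB h n E q = ((3 ^ h * n : ℕ) : ℤ) * (q : ℤ) ^ E := by
    intro E q
    unfold BB
    push_cast
    ring
  obtain ⟨s, τ', b, X, Y, hs, hAdN, hV, hind, h3, hLam, hspan⟩ :=
    hNBAS h n m k π p e r f w0 c hNF hh
  have hAdC : ∀ i, AdC h n π w0 c (b i) := fun i => (hAdN i).1
  have hb0 : ∀ i, b i ≠ 0 := fun i => (hAdC i).ne
  obtain ⟨P, Q, P', Q', hSys, hSw⟩ := hESYT h n m k π p e r f w0 c s b hNF hAdC hV hind h3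
  rw [← hs]
  generalize hv : vN h n π p e r w0 c = v
  -- the conductor
  have hD : ∀ j i : Fin s, ∃ f₀ : ℕ, 0 < f₀ ∧ (j ≠ i → ∀ f : ℕ, 0 < f → f₀ ∣ f →
      ∃ (C : ZMod 3) (Φ : (ZMod f)ˣ →* Multiplicative (ZMod 3)),
        ∀ (E q : ℕ) (hQ : q.Coprime f), q.Prime → q % 3 = 2 →
          AG (BB h n E q) (b i) →
          ∀ r : ℤ, (q : ℤ) ∣ r ^ 3 - b j →
            OT (BB h n E q) (b j) (X j) (Y j) (b i) (P j i) (Q j i) (P' j i) (Q' j i) =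
            C + E * ((Φ (ZMod.unitOfCoprime q hQ)).toAdd -
              TAUV q (P j i) (Q j i) (P' j i) (Q' j i) r)) := by
    intro j i
    by_cases hji : j = i
    · exact ⟨1, one_pos, fun h => absurd hji h⟩
    · obtain ⟨f₀, h0, h1⟩ := hDCOT (3 ^ h * n) (b j) (X j) (Y j) (b i) (P j i) (Q j i) (P' j i)
        (Q' j i) hN0 (hSys.sol j i hji) (hb0 j) (hb0 i)
      refine ⟨f₀, h0, fun _ f hf hd => ?_⟩
      obtain ⟨C, Φ, h2⟩ := h1 f hf hd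
      refine ⟨C, Φ, fun E q hQ hq hq3 hAG r hr => ?_⟩
      rw [hBB] at hAG ⊢
      exact h2 E q hQ hq hq3 hAG r hr
  choose F0 hF0 hF1 using hD
  obtain ⟨F, hFpos, hF9, hpF, hFd⟩ : ∃ F : ℕ, 0 < F ∧ 9 ∣ F ∧ (∀ i, p i ∣ F) ∧
      ∀ j i, F0 j i ∣ F := by
    refine ⟨9 * (∏ i, p i) * ∏ j, ∏ i, F0 j i, ?_, ?_, ?_, ?_⟩
    · have h1 : 0 < ∏ i, p i := Finset.prod_pos fun i _ => (hNF.pp i).pos
      have h2 : 0 < ∏ j, ∏ i, F0 j i :=
        Finset.prod_pos fun j _ => Finset.prod_pos fun i _ => hF0 j i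
      positivity
    · exact Dvd.dvd.mul_right (Dvd.intro _ rfl) _
    · intro i
      exact Dvd.dvd.mul_right (Dvd.dvd.mul_left (Finset.dvd_prod_of_mem p (mem_univ i)) _) _
    · intro j i
      exact Dvd.dvd.mul_left ((Finset.dvd_prod_of_mem (fun i => F0 j i) (mem_univ i)).trans
        (Finset.dvd_prod_of_mem (fun j => ∏ i, F0 j i) (mem_univ j))) _
  have hC : ∀ j i : Fin s, ∃ (C : ZMod 3) (Φ : (ZMod F)ˣ →* Multiplicative (ZMod 3)),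
      j ≠ i → ∀ (E q : ℕ) (hQ : q.Coprime F), q.Prime → q % 3 = 2 →
          AG (BB h n E q) (b i) →
          ∀ r : ℤ, (q : ℤ) ∣ r ^ 3 - b j →
            OT (BB h n E q) (b j) (X j) (Y j) (b i) (P j i) (Q j i) (P' j i) (Q' j i) =
            C + E * ((Φ (ZMod.unitOfCoprime q hQ)).toAdd -
              TAUV q (P j i) (Q j i) (P' j i) (Q' j i) r) := by
    intro j i
    by_cases hji : j = i
    · exact ⟨0, 1, fun h => absurd hji h⟩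
    · obtain ⟨C, Φ, h⟩ := hF1 j i hji F hFpos (hFd j i)
      exact ⟨C, Φ, fun _ => h⟩
  choose C Φ hC using hC
  obtain ⟨κ, hκ1, hκ2⟩ := hCLSC m π p hNF.pp hNF.p1 hNF.pπ hNF.pinj F hFpos hF9 hpF
  let Φ' : (ZMod F)ˣ →* Multiplicative (Fin s → Fin s → ZMod 3) := PT.FINA.assemble Φ
  obtain ⟨M, hM⟩ : ∃ M, M = n + F := ⟨_, rfl⟩
  -- the matrix
  have hmat : ∀ (E q : ℕ), (E = 1 ∨ E = 2) → q.Prime → M < q → q % 3 = 2 → InCT E π w0 c q →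
      CubeRank.GenBy (BB h n E q) (v + (s - (MaT b X Y P Q P' Q' (BB h n E q)).rank)) ∧
      ∃ hQ : q.Coprime F, ∀ τ : Fin s → Fin s → ZMod 3,
        (∀ j i, j ≠ i → ∀ r : ℤ, (q : ℤ) ∣ r ^ 3 - b j →
          τ j i = TAUV q (P j i) (Q j i) (P' j i) (Q' j i) r) →
        MaT b X Y P Q P' Q' (BB h n E q) = alt fun j i =>
          C j i + E * ((Φ j i (ZMod.unitOfCoprime q hQ)).toAdd - τ j i) := by
    intro E q hE hq hqM hq3 hIn
    have hF9' : 9 ≤ F := Nat.le_of_dvd hFpos hF9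
    have hqn : ¬ q ∣ n := fun h => by
      have := Nat.le_of_dvd hn0 h
      omega
    have hQ : q.Coprime F := by
      rw [Nat.Prime.coprime_iff_not_dvd hq]
      intro h
      have := Nat.le_of_dvd hFpos h
      omega
    obtain ⟨hBG, hTy, hiff⟩ := hNADT h n m k π p e r f w0 c E q hNF hh hE hq hq3 hIn hqn
    have hAG : ∀ i, AG (BB h n E q) (b i) := fun i =>
      ((hiff (b i) (hAdC i).supp).1 (hAdN i)).1
    have hgen := hNBKN h n m k π p e r f w0 c s τ' b X Y P Q P' Q' E q hNF hh hAdN hSys hSw hLam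
      hspan hE hq (by omega) hq3 hIn hqn
    rw [hv] at hgen
    refine ⟨hgen, hQ, ?_⟩
    intro τ hτ
    have hent : ∀ j i, j ≠ i → MaT b X Y P Q P' Q' (BB h n E q) j i =
        C j i + E * ((Φ j i (ZMod.unitOfCoprime q hQ)).toAdd - τ j i) := by
      intro j i hji
      obtain ⟨ρ, hρ⟩ := BFINA.exists_root hq hq3 (b j)
      rw [MaT, if_neg hji, hC j i hji E q hQ hq hq3 (hAG i) ρ hρ, ← hτ j i hji ρ hρ]
    have hanti := (hTENT s τ' b X Y P Q P' Q' (BB h n E q) hSys hSw hBG hAG (hLam _ hTy) hb0).1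
    ext j i
    rw [alt]
    rcases lt_trichotomy j i with h | h | h
    · rw [if_pos h, hent j i h.ne]
    · subst h
      rw [if_neg (lt_irrefl _), if_neg (lt_irrefl _), MaT, if_pos rfl]
    · rw [if_neg (not_lt.2 h.le), if_pos h, hanti j i, hent i j h.ne]
  obtain ⟨K, hK⟩ := hBDG s b P Q P' Q' F m (t - v) κ (Fin.cons w0 c) C Φ' hSys hFpos hF9 hκ2
  have hsub1 : ∀ q : ℕ, q.Prime → M < q → q ∈ WR h n π w0 c 2 1 t →
      q ∈ SP b P Q P' Q' (t - v) κ (Fin.cons w0 c) C Φ' := by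
    intro q hq hqM ⟨hq3, hIn, hrr⟩
    obtain ⟨hgen, hQ, hm⟩ := hmat 1 q (Or.inl rfl) hq hqM hq3 hIn
    have hr1 := CubeRank.rr_le hgen
    refine ⟨hQ, hq3, ?_, ?_⟩
    · rw [hκ1]
      funext i
      refine Fin.cases ?_ (fun i => ?_) i
      · rw [Fin.cons_zero, Fin.cons_zero]
        have h5 := hIn.1
        rw [pow_one] at h5
        exact h5
      · rw [Fin.cons_succ, Fin.cons_succ]
        have h5 := hIn.2 i
        rw [Nat.cast_one, one_mul] at h5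
        exact h5
    · intro τ hτ
      have e1 : (fun j i => C j i + ((1 : ℕ) : ZMod 3) *
          ((Φ j i (ZMod.unitOfCoprime q hQ)).toAdd - τ j i)) =
          C + (Φ' (ZMod.unitOfCoprime q hQ)).toAdd - τ := by
        funext j i
        show C j i + ((1 : ℕ) : ZMod 3) * ((Φ j i (ZMod.unitOfCoprime q hQ)).toAdd - τ j i) =
          C j i + (Φ j i (ZMod.unitOfCoprime q hQ)).toAdd - τ j i
        rw [Nat.cast_one]
        ring
      rw [← e1, ← hm τ hτ]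
      omega
  have hsub2 : ∀ q : ℕ, q.Prime → M < q → q ∈ WR h n π w0 c 2 2 t →
      q ∈ SM b P Q P' Q' (t - v) κ (Fin.cons w0 c) C Φ' := by
    intro q hq hqM ⟨hq3, hIn, hrr⟩
    obtain ⟨hgen, hQ, hm⟩ := hmat 2 q (Or.inr rfl) hq hqM hq3 hIn
    have hr1 := CubeRank.rr_le hgen
    refine ⟨hQ, hq3, ?_, ?_⟩
    · rw [hκ1]
      funext i
      refine Fin.cases ?_ (fun i => ?_) i
      · rw [Fin.cons_zero, Pi.neg_apply, Fin.cons_zero]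
        have h5 := hIn.1
        rw [CL.wt_sq2 hq3] at h5
        exact neg_of_two h5
      · rw [Fin.cons_succ, Pi.neg_apply, Fin.cons_succ]
        exact neg_of_two (hIn.2 i)
    · intro τ hτ
      have e1 : (fun j i => C j i + ((2 : ℕ) : ZMod 3) *
          ((Φ j i (ZMod.unitOfCoprime q hQ)).toAdd - τ j i)) =
          C - (Φ' (ZMod.unitOfCoprime q hQ)).toAdd + τ := by
        funext j i
        show C j i + ((2 : ℕ) : ZMod 3) * ((Φ j i (ZMod.unitOfCoprime q hQ)).toAdd - τ j i) =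
          C j i - (Φ j i (ZMod.unitOfCoprime q hQ)).toAdd + τ j i
        rw [show ((2 : ℕ) : ZMod 3) = -1 from by decide]
        ring
      rw [← e1, ← hm τ hτ]
      omega
  refine ⟨M, _, _, sp_prim hFpos b P Q P' Q' κ (Fin.cons w0 c) C Φ',
    sm_prim hFpos b P Q P' Q' κ (Fin.cons w0 c) C Φ', hsub1, hsub2, K, fun σ h1 hσ2 => ?_⟩
  have hB := hK σ h1 hσ2
  unfold LI
  linarith

open DLU in
/-- The primes `q = 1 (mod 3)` of a class, of a given pattern, with rank at least `t` are in a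
primitive recursive set. -/
theorem DLU_dec (hESYT : ESYT) (hDCOU : DCOU) (hCLSC : CLSC) (hCLSCS : CLSCS)
    (hNBKU : Stmt_NBKU) (hBDU : Stmt_BDU) (hTENT : TENT) (hNADU : Stmt_NADU)
    (hSPLT : SPLT) :
    ∀ (h n m k : ℕ) (π : Fin m → PP) (p e : Fin m → ℕ) (r f : Fin k → ℕ)
      (w0 : ZMod 3) (c : Fin m → ZMod 3) (d : ℕ) (v : Fin d → ℤ), NF n π p e r f → h ≤ 2 →
      HB h n π w0 c v → ∀ (δ : Fin d → ZMod 3), δ ≠ 0 → ∀ t : ℕ,
      ∃ (M : ℕ) (W1 W2 : Set ℕ), DecP W1 ∧ DecP W2 ∧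
        (∀ q : ℕ, q.Prime → M < q → q ∈ WR h n π w0 c 1 1 t ∩ Pat v δ → q ∈ W1) ∧
        (∀ q : ℕ, q.Prime → M < q → q ∈ WR h n π w0 c 1 2 t ∩ Pat v δ → q ∈ W2) ∧
        ∃ K : ℝ, ∀ σ : ℝ, 1 < σ → σ ≤ 2 →
          BDENS.sm W1 σ + BDENS.sm W2 σ ≤
            2 / 3 ^ d * LI (d - 1) (t - vN h n π p e r w0 c) / 3 ^ (m + 1) *
              Real.log (1 / (σ - 1)) + K := by
  intro h n m k π p e r f w0 c d v hNF hh hHB δ hδ t
  obtain ⟨hv, hspan, hδ'⟩ := hHB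
  obtain ⟨s, τ, b, X, Y, hs, hAdN, hV, hind, h3, hLam, hρ⟩ := hδ' δ hδ
  obtain ⟨P, Q, P', Q', hSys, hSw⟩ := hESYT h n m k π p e r f w0 c (s + 1) b hNF
    (fun i => (hAdN i).1) hV hind h3
  have hn : 0 < n := FINAS.pos_of_nf hNF
  have hN0 : 0 < 3 ^ h * n := Nat.mul_pos (pow_pos (by norm_num) _) hn
  have hb : ∀ i, b i ≠ 0 := fun i => (hAdN i).1.ne
  have hD : ∀ j i : Fin s, ∃ f₀ : ℕ, 0 < f₀ ∧ ∀ F : ℕ, 0 < F → f₀ ∣ F →
      ∃ (C : ZMod 3) (Φ : (ZMod F)ˣ →* Multiplicative (ZMod 3)) (N₀ : ℕ), j ≠ i →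
        ∀ (E q : ℕ) (hQ : q.Coprime F) (ρ : PP), (E = 1 ∨ E = 2) → q.Prime → N₀ < q →
          q % 3 = 1 → (q : Eis) = ρ.1 * conj ρ.1 →
          AG (BB h n E q) (b j.castSucc) → AG (BB h n E q) (b i.castSucc) →
          ∀ t : ℤ, (q : ℤ) ∣ t ^ 3 - b j.castSucc →
          OT (BB h n E q) (b j.castSucc) (X j) (Y j) (b i.castSucc) (rs P j i) (rs Q j i)
            (rs P' j i) (rs Q' j i) = C + E * ((Φ (ZMod.unitOfCoprime q hQ)).toAdd +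
              TAUVS ρ.1 (rs P j i) (rs Q j i) (rs P' j i) (rs Q' j i) t) := by
    intro j i
    by_cases hji : j = i
    · exact ⟨1, one_pos, fun F _ _ => ⟨0, 1, 0, fun h => absurd hji h⟩⟩
    · obtain ⟨f₀, hf₀, hf⟩ := hDCOU (3 ^ h * n) (b j.castSucc) (X j) (Y j) (b i.castSucc)
        (rs P j i) (rs Q j i) (rs P' j i) (rs Q' j i) hN0
        (hSys.sol j.castSucc i.castSucc fun h => hji (Fin.castSucc_injective _ h)) (hb _) (hb _)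
      refine ⟨f₀, hf₀, fun F hF hd => ?_⟩
      obtain ⟨C, Φ, N₀, h'⟩ := hf F hF hd
      refine ⟨C, Φ, N₀, fun _ E q hQ ρ hE hqp hqN hq3 hqρ hAj hAi t ht => ?_⟩
      rw [BB_eq] at hAj hAi ⊢
      exact h' E q hQ ρ hE hqp hqN hq3 hqρ hAj hAi t ht
  choose f₀ hf₀ hD1 using hD
  obtain ⟨F, hF, h9, hpF, hfF⟩ : ∃ F : ℕ, 0 < F ∧ 9 ∣ F ∧ (∀ i, p i ∣ F) ∧ ∀ j i, f₀ j i ∣ F := by
    refine ⟨9 * (∏ i, p i) * ∏ j, ∏ i, f₀ j i, ?_, ?_, ?_, ?_⟩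
    · have h1 : 0 < ∏ i, p i := Finset.prod_pos fun i _ => (hNF.pp i).pos
      have h2 : 0 < ∏ j, ∏ i, f₀ j i :=
        Finset.prod_pos fun j _ => Finset.prod_pos fun i _ => hf₀ j i
      positivity
    · exact Dvd.dvd.mul_right (Dvd.intro _ rfl) _
    · intro i
      exact Dvd.dvd.mul_right (Dvd.dvd.mul_left (Finset.dvd_prod_of_mem p (mem_univ i)) _) _
    · intro j i
      exact Dvd.dvd.mul_left ((Finset.dvd_prod_of_mem (fun i => f₀ j i) (mem_univ i)).trans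
        (Finset.dvd_prod_of_mem (fun j => ∏ i, f₀ j i) (mem_univ j))) _
  choose C Φ N₀ hD2 using fun j i => hD1 j i F hF (hfF j i)
  obtain ⟨κ, hκ, hcount⟩ := hCLSC m π p hNF.pp hNF.p1 hNF.pπ hNF.pinj F hF h9 hpF
  have hcount' := hCLSCS F m κ hF h9 hcount
  obtain ⟨K, hK⟩ := hBDU s b P Q P' Q' F m (t - vN h n π p e r w0 c) κ (Fin.cons w0 c) C
    (FINAS.assemble Φ) hSys hF h9 hcount'
  have hN : ∀ j i, N₀ j i ≤ ∑ j, ∑ i, N₀ j i := by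
    intro j i
    exact (Finset.single_le_sum (f := fun i => N₀ j i) (fun i _ => Nat.zero_le _)
      (mem_univ i)).trans (Finset.single_le_sum (f := fun j => ∑ i, N₀ j i)
        (fun j _ => Nat.zero_le _) (mem_univ j))
  obtain ⟨M, hM⟩ : ∃ M, M = n + F + 3 + ∑ j, ∑ i, N₀ j i := ⟨_, rfl⟩
  -- the matrix
  have hmat : ∀ (E q : ℕ), (E = 1 ∨ E = 2) → q.Prime → M < q →
      q ∈ WR h n π w0 c 1 E t ∩ Pat v δ →
      ∃ (hQ : q.Coprime F) (ρ : PP), (q : Eis) = ρ.1 * conj ρ.1 ∧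
        (∀ j : Fin s, sym ρ.1 (b j.castSucc : Eis) = 0) ∧ sym ρ.1 (b (Fin.last s) : Eis) ≠ 0 ∧
        ∀ τ' : Fin s → Fin s → ZMod 3,
        (∀ j i, j ≠ i → ∀ r : ℤ, (q : ℤ) ∣ r ^ 3 - b j.castSucc →
          τ' j i = TAUVS ρ.1 (rs P j i) (rs Q j i) (rs P' j i) (rs Q' j i) r) →
        t - vN h n π p e r w0 c ≤ s - (alt fun j i =>
          C j i + E * ((Φ j i (ZMod.unitOfCoprime q hQ)).toAdd + τ' j i)).rank := by
    intro E q hE hq hqM ⟨⟨hq3, hIn, hrr⟩, ρ, hqρ, hpat⟩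
    have hqn : ¬ q ∣ n := fun h => by
      have := Nat.le_of_dvd hn h
      omega
    have hQ : q.Coprime F := by
      rw [Nat.Prime.coprime_iff_not_dvd hq]
      intro h
      have := Nat.le_of_dvd hF h
      omega
    have h3q : 3 < q := by omega
    have hρn : ¬ ρ.1 ∣ (n : Eis) := by
      intro h2
      have h4 := (hSPLT.2 q ρ hq hq3 hqρ).2.2.2.1 (n : ℤ)
      rw [Int.cast_natCast] at h4
      exact hqn (Int.natCast_dvd_natCast.1 (h4.1 h2))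
    obtain ⟨hiff, hsp⟩ := hρ ρ hρn
    obtain ⟨hb0, hb1⟩ := hiff.2 hpat
    obtain ⟨hBG, hTy, hA⟩ := hNADU h n m k π p e r f w0 c E q ρ hNF hh hE hq hq3 hIn hqn hqρ
    have hAG : ∀ i : Fin s, AG (BB h n E q) (b i.castSucc) := fun i =>
      ((hA _ (hAdN i.castSucc).1.supp).1 ⟨hAdN i.castSucc, hb0 i⟩).1
    have hgen := hNBKU h n m k π p e r f w0 c s τ b X Y P Q P' Q' E q ρ hNF hh hAdN hSys hSw hLam
      (hsp hb0 hb1) hE hq h3q hq3 hIn hqn hqρ hb0 hb1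
    have hle := CubeRank.rr_le hgen
    have hskew := (hTENT s τ (rv b) X Y _ _ _ _ _ (ECLU.sysG_restr hSys) (ECLU.sw_restr hSw) hBG
      hAG (hLam _ hTy) (fun i => hb _)).1
    refine ⟨hQ, ρ, hqρ, hb0, hb1, fun τ' hτ' => ?_⟩
    have hent : ∀ j i, j ≠ i →
        MaT (rv b) X Y (rs P) (rs Q) (rs P') (rs Q') (BB h n E q) j i =
        C j i + E * ((Φ j i (ZMod.unitOfCoprime q hQ)).toAdd + τ' j i) := by
      intro j i hji
      have hqb : ¬ (q : ℤ) ∣ b j.castSucc := fun h => by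
        rcases (hq.dvd_mul).1 ((hAdN j.castSucc).1.supp q hq h) with h1 | h1
        · have := Nat.le_of_dvd (by norm_num) h1
          omega
        · exact hqn h1
      obtain ⟨x, hx⟩ := (hSPLT.2 q ρ hq hq3 hqρ).2.2.2.2.2 _ hqb (hb0 j)
      unfold MaT
      rw [if_neg hji]
      refine (hD2 j i hji E q hQ ρ hE hq (by have := hN j i; omega) hq3 hqρ (hAG j) (hAG i) x
        hx).trans ?_
      rw [← hτ' j i hji x hx]
    have hMa : MaT (rv b) X Y (rs P) (rs Q) (rs P') (rs Q') (BB h n E q) = alt fun j i =>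
        C j i + E * ((Φ j i (ZMod.unitOfCoprime q hQ)).toAdd + τ' j i) := by
      ext j i
      rw [alt]
      rcases lt_trichotomy j i with h | h | h
      · rw [if_pos h, hent j i h.ne]
      · subst h
        rw [if_neg (lt_irrefl _), if_neg (lt_irrefl _), MaT, if_pos rfl]
      · rw [if_neg (not_lt.2 h.le), if_pos h, hskew j i, hent i j h.ne]
    rw [← hMa]
    omega
  have hsub1 : ∀ q : ℕ, q.Prime → M < q → q ∈ WR h n π w0 c 1 1 t ∩ Pat v δ →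
      q ∈ SPU b P Q P' Q' (t - vN h n π p e r w0 c) κ (Fin.cons w0 c) C (FINAS.assemble Φ) := by
    intro q hq hqM hqW
    obtain ⟨hQ, ρ, hqρ, hb0, hb1, hm⟩ := hmat 1 q (Or.inl rfl) hq hqM hqW
    obtain ⟨⟨hq3, ⟨hw, hc⟩, -⟩, -⟩ := hqW
    refine ⟨hQ, ρ, ⟨hq3, ?_, hqρ, hb0, hb1⟩, fun τ' hτ' => ?_⟩
    · rw [hκ]
      refine cons_eq ?_ fun i => ?_
      · rw [Fin.cons_zero, Fin.cons_zero]
        rw [pow_one] at hw
        exact hw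
      · rw [Fin.cons_succ, Fin.cons_succ, ← hc i, Nat.cast_one, one_mul]
    · have e1 : (fun j i => C j i + ((1 : ℕ) : ZMod 3) *
          ((Φ j i (ZMod.unitOfCoprime q hQ)).toAdd + τ' j i)) =
          C + (FINAS.assemble Φ (ZMod.unitOfCoprime q hQ)).toAdd + τ' := by
        funext j i
        show C j i + ((1 : ℕ) : ZMod 3) * ((Φ j i (ZMod.unitOfCoprime q hQ)).toAdd + τ' j i) =
          C j i + (Φ j i (ZMod.unitOfCoprime q hQ)).toAdd + τ' j i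
        rw [Nat.cast_one]
        ring
      rw [← e1]
      exact hm τ' hτ'
  have hsub2 : ∀ q : ℕ, q.Prime → M < q → q ∈ WR h n π w0 c 1 2 t ∩ Pat v δ →
      q ∈ SMU b P Q P' Q' (t - vN h n π p e r w0 c) κ (Fin.cons w0 c) C (FINAS.assemble Φ) := by
    intro q hq hqM hqW
    obtain ⟨hQ, ρ, hqρ, hb0, hb1, hm⟩ := hmat 2 q (Or.inr rfl) hq hqM hqW
    obtain ⟨⟨hq3, ⟨hw, hc⟩, -⟩, -⟩ := hqW
    refine ⟨hQ, ρ, ⟨hq3, ?_, hqρ, hb0, hb1⟩, fun τ' hτ' => ?_⟩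
    · rw [hκ]
      refine cons_eq ?_ fun i => ?_
      · rw [Fin.cons_zero, Pi.neg_apply, Fin.cons_zero]
        have h3 : ¬ (3 : ℤ) ∣ (q : ℤ) := by omega
        have h4 := sq_mod_three h3
        have h5 : ((q : ℤ) ^ 2) ^ 2 = (q : ℤ) ^ 2 * (q : ℤ) ^ 2 := by ring
        rw [h5, wt_mul h4 h4] at hw
        exact neg_of_two (by rw [two_mul]; exact hw)
      · rw [Fin.cons_succ, Pi.neg_apply, Fin.cons_succ]
        exact neg_of_two (hc i)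
    · have e1 : (fun j i => C j i + ((2 : ℕ) : ZMod 3) *
          ((Φ j i (ZMod.unitOfCoprime q hQ)).toAdd + τ' j i)) =
          C - (FINAS.assemble Φ (ZMod.unitOfCoprime q hQ)).toAdd - τ' := by
        funext j i
        show C j i + ((2 : ℕ) : ZMod 3) * ((Φ j i (ZMod.unitOfCoprime q hQ)).toAdd + τ' j i) =
          C j i - (Φ j i (ZMod.unitOfCoprime q hQ)).toAdd - τ' j i
        rw [show ((2 : ℕ) : ZMod 3) = -1 from by decide]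
        ring
      rw [← e1]
      exact hm τ' hτ'
  refine ⟨M, _, _, spu_prim hSPLT hF b P Q P' Q' κ (Fin.cons w0 c) C (FINAS.assemble Φ),
    smu_prim hSPLT hF b P Q P' Q' κ (Fin.cons w0 c) C (FINAS.assemble Φ), hsub1, hsub2, K,
    fun σ h1 hσ2 => ?_⟩
  have hB := hK σ h1 hσ2
  have e2 : (2 / 3 ^ d * LI (d - 1) (t - vN h n π p e r w0 c) / 3 ^ (m + 1) : ℝ) =
      2 / 3 ^ (s + 1) * ((NK s (t - vN h n π p e r w0 c) : ℝ) /
        Nat.card (Fin s → Fin s → ZMod 3)) / 3 ^ (m + 1) := by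
    subst hs
    rw [LI, Nat.add_sub_cancel]
  rw [e2]
  linarith

open CLU BDENS in
/-- The primes `q = 1 (mod 3)` of a class with rank at least `t` are in a primitive recursive
set. -/
theorem CLU_dec (hNHPT : Stmt_NHPT) (hDLU : ∀ (h n m k : ℕ) (π : Fin m → PP) (p e : Fin m → ℕ)
      (r f : Fin k → ℕ) (w0 : ZMod 3) (c : Fin m → ZMod 3) (d : ℕ) (v : Fin d → ℤ),
      NF n π p e r f → h ≤ 2 → HB h n π w0 c v → ∀ (δ : Fin d → ZMod 3), δ ≠ 0 → ∀ t : ℕ,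
      ∃ (M : ℕ) (W1 W2 : Set ℕ), DecP W1 ∧ DecP W2 ∧
        (∀ q : ℕ, q.Prime → M < q → q ∈ WR h n π w0 c 1 1 t ∩ Pat v δ → q ∈ W1) ∧
        (∀ q : ℕ, q.Prime → M < q → q ∈ WR h n π w0 c 1 2 t ∩ Pat v δ → q ∈ W2) ∧
        ∃ K : ℝ, ∀ σ : ℝ, 1 < σ → σ ≤ 2 →
          BDENS.sm W1 σ + BDENS.sm W2 σ ≤
            2 / 3 ^ d * LI (d - 1) (t - vN h n π p e r w0 c) / 3 ^ (m + 1) *
              Real.log (1 / (σ - 1)) + K)
    (hDLL : Stmt_DLL) (hCLT : Stmt_CLT) (hSMT : Stmt_SMT) (hSPLT : SPLT) :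
    ∀ (h n m k : ℕ) (π : Fin m → PP) (p e : Fin m → ℕ) (r f : Fin k → ℕ)
      (w0 : ZMod 3) (c : Fin m → ZMod 3), NF n π p e r f → h ≤ 2 →
      ∀ t : ℕ, t ≤ vN h n π p e r w0 c + sN h n π p e r w0 c + 1 →
      ∃ (M : ℕ) (W1 W2 : Set ℕ), DecP W1 ∧ DecP W2 ∧
        (∀ q : ℕ, q.Prime → M < q → q ∈ WR h n π w0 c 1 1 t → q ∈ W1) ∧
        (∀ q : ℕ, q.Prime → M < q → q ∈ WR h n π w0 c 1 2 t → q ∈ W2) ∧
        ∃ K : ℝ, ∀ σ : ℝ, 1 < σ → σ ≤ 2 →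
          sm W1 σ + sm W2 σ ≤
            LS (sN h n π p e r w0 c) (vN h n π p e r w0 c) t / 3 ^ (m + 1) *
              Real.log (1 / (σ - 1)) + K := by
  classical
  intro h n m k π p e r f w0 c hNF hh t ht
  have hn0 : 0 < n := by
    rw [hNF.eq]
    exact Nat.mul_pos (Finset.prod_pos fun i _ => pow_pos (hNF.pp i).pos _)
      (Finset.prod_pos fun j _ => pow_pos (hNF.rp j).pos _)
  obtain ⟨d, V, hd, hAd, hspan, hHP⟩ := hNHPT h n m k π p e r f w0 c hNF hh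
  have hHB : HB h n π w0 c V := ⟨hAd, hspan, hHP⟩
  rw [← hd] at ht ⊢
  obtain ⟨vv, hvv⟩ : ∃ vv, vv = vN h n π p e r w0 c := ⟨_, rfl⟩
  have hU := hDLU h n m k π p e r f w0 c d V hNF hh hHB
  have hL := hDLL h n m k π p e r f w0 c d V hNF hh hHB
  rw [← hvv] at hU ht ⊢
  choose MU U1 U2 hU1 hU2 hU3 hU4 KU' hKU' using
    fun δ : {δ : Fin d → ZMod 3 // δ ≠ 0} => hU δ.1 δ.2 t
  obtain ⟨M, hM⟩ : ∃ M, M = n + 3 + ∑ i, (V i).natAbs + ∑ δ, MU δ := ⟨_, rfl⟩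
  have hMU : ∀ δ, MU δ ≤ M := by
    intro δ
    have h1 : MU δ ≤ ∑ δ, MU δ :=
      Finset.single_le_sum (f := fun δ => MU δ) (fun δ _ => Nat.zero_le _) (Finset.mem_univ δ)
    omega
  have hV : ∀ q : ℕ, M < q → ∀ i, ¬ (q : ℤ) ∣ V i := by
    intro q hq i hdv
    have h1 : q ∣ (V i).natAbs := Int.natCast_dvd.1 hdv
    have h2 := Nat.le_of_dvd (Int.natAbs_pos.2 (hAd i).1.ne) h1
    have h3 : (V i).natAbs ≤ ∑ i, (V i).natAbs :=
      Finset.single_le_sum (f := fun i => (V i).natAbs) (fun i _ => Nat.zero_le _)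
        (Finset.mem_univ i)
    omega
  obtain ⟨x, hx⟩ : ∃ x : ℕ → Fin d → ZMod 3, ∀ q : ℕ, q.Prime → M < q → q % 3 = 1 → ∀ δ,
      q ∈ Pat V δ ↔ δ = x q ∨ δ = - x q := by
    refine ⟨fun q => if hx : ∃ ρ : PP, (q : Eis) = ρ.1 * conj ρ.1 then
      fun i => sym hx.choose.1 (V i : Eis) else 0, fun q hq hMq h1 δ => ?_⟩
    have hex := hSPLT.1 q hq h1
    simp only [dif_pos hex]
    exact pat_iff hSPLT V hq h1 (hV q hMq) hex.choose_spec δ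
  -- a prime has not both the pattern zero and a pattern different from zero
  have hexc : ∀ q : ℕ, q.Prime → M < q → q % 3 = 1 → ∀ δ : {δ : Fin d → ZMod 3 // δ ≠ 0},
      q ∈ Pat V δ.1 → q ∉ Pat V 0 := by
    intro q hq hMq h1 δ hδ h0
    rw [hx q hq hMq h1] at hδ h0
    have hx0 : x q = 0 := by
      rcases h0 with h0 | h0
      · exact h0.symm
      · exact neg_eq_zero.1 h0.symm
    rw [hx0, neg_zero] at hδ
    rcases hδ with hδ | hδ <;> exact δ.2 hδ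
  -- the sets
  obtain ⟨Z, hZdef⟩ : ∃ Z : ℕ → ({δ : Fin d → ZMod 3 // δ ≠ 0} → Set ℕ) → Set ℕ,
    ∀ E U, Z E U = ({q : ℕ | q % 3 = 1} ∩ {q : ℕ | InCT E π w0 c q}) ∩
      (({q : ℕ | q % 3 = 1} ∩ Pat V 0) ∪
        ⋂ δ : {δ : Fin d → ZMod 3 // δ ≠ 0}, (({q : ℕ | q % 3 = 1} ∩ Pat V δ.1)ᶜ ∪ U δ)) :=
    ⟨_, fun _ _ => rfl⟩
  have hZdec : ∀ E U, (∀ δ, DecP (U δ)) → DecP (Z E U) := by
    intro E U hU
    rw [hZdef]
    exact ((mod_prim 1).inter (inct_prim E π w0 c p hNF.pp hNF.pπ)).inter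
      ((pat_prim hSPLT V 0).union (DecP.iInter fun δ =>
        (pat_prim hSPLT V δ.1).compl.union (hU δ)))
  have hZ1 : ∀ E U q, q ∈ Z E U → q % 3 = 1 ∧ InCT E π w0 c q := by
    intro E U q hq
    rw [hZdef] at hq
    exact ⟨hq.1.1, hq.1.2⟩
  have hZ2 : ∀ E U q, q.Prime → M < q → ∀ δ : {δ : Fin d → ZMod 3 // δ ≠ 0},
      q ∈ Z E U ∩ Pat V δ.1 → q ∈ U δ := by
    intro E U q hq hMq δ h1
    obtain ⟨h1, h2⟩ := h1
    have h3 := (hZ1 E U q h1).1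
    rw [hZdef] at h1
    rcases h1.2 with h4 | h4
    · exact absurd h4.2 (hexc q hq hMq h3 δ h2)
    · rcases Set.mem_iInter.1 h4 δ with h5 | h5
      · exact absurd ⟨h3, h2⟩ h5
      · exact h5
  have hZ3 : ∀ E U q, q % 3 = 1 → InCT E π w0 c q →
      (∀ δ : {δ : Fin d → ZMod 3 // δ ≠ 0}, q ∈ Pat V δ.1 → q ∈ U δ) → q ∈ Z E U := by
    intro E U q h1 h2 h3
    rw [hZdef]
    refine ⟨⟨h1, h2⟩, Or.inr (Set.mem_iInter.2 fun δ => ?_)⟩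
    by_cases h4 : q ∈ Pat V δ.1
    · exact Or.inr (h3 δ h4)
    · exact Or.inl fun h5 => h4 h5.2
  refine ⟨M, Z 1 U1, Z 2 U2, hZdec 1 U1 hU1, hZdec 2 U2 hU2, fun q hq hMq hW =>
    hZ3 1 U1 q hW.1 hW.2.1 fun δ hδ => hU3 δ q hq (lt_of_le_of_lt (hMU δ) hMq) ⟨hW, hδ⟩,
    fun q hq hMq hW =>
    hZ3 2 U2 q hW.1 hW.2.1 fun δ hδ => hU4 δ q hq (lt_of_le_of_lt (hMU δ) hMq) ⟨hW, hδ⟩, ?_⟩
  have hcZ : ∀ E U, _ := fun E U => comb hSMT M (Z E U) (Pat V) x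
    fun q hq hMq hW => hx q hq hMq (hZ1 E U q hW).1
  have hc : ∀ E t' : ℕ, _ := fun E t' => comb hSMT M (WR h n π w0 c 1 E t') (Pat V) x
    fun q hq hMq hW => hx q hq hMq hW.1
  obtain ⟨KA1, hA1⟩ := (hcZ 1 U1).1
  obtain ⟨KA2, hA2⟩ := (hcZ 2 U2).1
  obtain ⟨KB1, hB1⟩ := (hc 1 0).2
  obtain ⟨KB2, hB2⟩ := (hc 2 0).2
  have hKUe : ∀ δ : {δ : Fin d → ZMod 3 // δ ≠ 0}, ∃ K : ℝ, ∀ σ : ℝ, 1 < σ → σ ≤ 2 →
      sm (Z 1 U1 ∩ Pat V δ.1) σ + sm (Z 2 U2 ∩ Pat V δ.1) σ ≤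
        2 / 3 ^ d * LI (d - 1) (t - vv) / 3 ^ (m + 1) * Real.log (1 / (σ - 1)) + K := by
    intro δ
    obtain ⟨K1, hK1⟩ := sm_le (Z 1 U1 ∩ Pat V δ.1) (U1 δ) M fun q hq hMq h1 =>
      hZ2 1 U1 q hq hMq δ h1
    obtain ⟨K2, hK2⟩ := sm_le (Z 2 U2 ∩ Pat V δ.1) (U2 δ) M fun q hq hMq h1 =>
      hZ2 2 U2 q hq hMq δ h1
    refine ⟨K1 + K2 + KU' δ, fun σ h1 h2 => ?_⟩
    have e1 := hK1 σ h1
    have e2 := hK2 σ h1
    have e3 := hKU' δ σ h1 h2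
    linarith
  choose KU hKU using hKUe
  choose KL hKL using fun δ : {δ : Fin d → ZMod 3 // δ ≠ 0} => hL δ.1 δ.2
  obtain ⟨KC, hKC⟩ := hCLT m π p hNF.pp hNF.p1 hNF.pπ hNF.pinj w0 c 1 (Or.inl rfl)
  have hWset : ∀ E : ℕ, {q : ℕ | q % 3 = 1 ∧ InCT E π w0 c q} = WR h n π w0 c 1 E 0 := by
    intro E
    ext q
    simp [WR]
  rw [hWset 1, hWset 2] at hKC
  -- the zero pattern
  have hZ : ∀ (E : ℕ) (U : {δ : Fin d → ZMod 3 // δ ≠ 0} → Set ℕ), ∃ K : ℝ, ∀ σ : ℝ, 1 < σ →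
      sm (Z E U) σ ≤ sm (Z E U \ Pat V 0) σ + sm (WR h n π w0 c 1 E 0 ∩ Pat V 0) σ + K := by
    intro E U
    have h1 : ∀ σ : ℝ, 1 < σ → sm (Z E U) σ ≤
        sm (Z E U \ Pat V 0) σ + sm (Z E U ∩ Pat V 0) σ := by
      intro σ hσ
      rw [sm_eq, sm_eq, sm_eq, ← (ind_summable _ hσ).tsum_add (ind_summable _ hσ)]
      refine (ind_summable _ hσ).tsum_le_tsum (fun q => ?_)
        ((ind_summable _ hσ).add (ind_summable _ hσ))
      by_cases hq : q.Prime ∧ q ∈ Z E U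
      · by_cases hP : q ∈ Pat V 0
        · rw [ind_mem hq.1 hq.2, ind_mem (S := Z E U ∩ Pat V 0) hq.1 ⟨hq.2, hP⟩]
          have := ind_nonneg (Z E U \ Pat V 0) σ q
          linarith
        · rw [ind_mem hq.1 hq.2, ind_mem (S := Z E U \ Pat V 0) hq.1 ⟨hq.2, hP⟩]
          have := ind_nonneg (Z E U ∩ Pat V 0) σ q
          linarith
      · rw [ind_not hq]
        exact add_nonneg (ind_nonneg _ _ _) (ind_nonneg _ _ _)
    obtain ⟨K, hK⟩ := sm_le (Z E U ∩ Pat V 0) (WR h n π w0 c 1 E 0 ∩ Pat V 0) 0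
      fun q _ _ hq => ⟨⟨(hZ1 E U q hq.1).1, (hZ1 E U q hq.1).2, Nat.zero_le _⟩, hq.2⟩
    refine ⟨K, fun σ hσ => ?_⟩
    have := h1 σ hσ
    have := hK σ hσ
    linarith
  obtain ⟨KZ1, hZ1'⟩ := hZ 1 U1
  obtain ⟨KZ2, hZ2'⟩ := hZ 2 U2
  have hNZ : ∀ E : ℕ, ∀ σ : ℝ, 1 < σ → sm (WR h n π w0 c 1 E 0 \ Pat V 0) σ +
      sm (WR h n π w0 c 1 E 0 ∩ Pat V 0) σ ≤ sm (WR h n π w0 c 1 E 0) σ := by
    intro E σ hσ
    have h1 := sm_add_le (WR h n π w0 c 1 E 0 \ Pat V 0) (WR h n π w0 c 1 E 0 ∩ Pat V 0)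
      (WR h n π w0 c 1 E 0) ∅ (fun q _ _ hq => ⟨hq.1, fun h' => hq.2 h'.2⟩)
      (fun q _ _ hq => hq.1) hσ
    simpa using h1
  have hcard := card_ne d
  have hD : (0 : ℝ) < 3 ^ d := by positivity
  have hN : (0 : ℝ) < 3 ^ (m + 1) := by positivity
  refine ⟨KZ1 + KZ2 + (KA1 + KA2 + ∑ i, KU i) / 2 + |KC + (KB1 + KB2 + ∑ i, KL i) / 2|,
    fun σ hσ hσ2 => ?_⟩
  have a1 := hA1 σ hσ hσ2
  have a2 := hA2 σ hσ hσ2
  have b1 := hB1 σ hσ hσ2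
  have b2 := hB2 σ hσ hσ2
  have z1 := hZ1' σ hσ
  have z2 := hZ2' σ hσ
  have c0 := (hKC σ hσ hσ2).2
  have n1 := hNZ 1 σ hσ
  have n2 := hNZ 2 σ hσ
  obtain ⟨Lg, hLg⟩ : ∃ Lg, Lg = Real.log (1 / (σ - 1)) := ⟨_, rfl⟩
  have u1 : ∑ i : {δ : Fin d → ZMod 3 // δ ≠ 0}, sm (Z 1 U1 ∩ Pat V i.1) σ +
      ∑ i : {δ : Fin d → ZMod 3 // δ ≠ 0}, sm (Z 2 U2 ∩ Pat V i.1) σ ≤
      (3 ^ d - 1) * (2 / 3 ^ d * LI (d - 1) (t - vv) / 3 ^ (m + 1) * Lg) + ∑ i, KU i := by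
    rw [← Finset.sum_add_distrib, ← hcard, ← nsmul_eq_mul, ← Finset.card_univ,
      ← Finset.sum_const, ← Finset.sum_add_distrib, hLg]
    exact Finset.sum_le_sum fun i _ => hKU i σ hσ hσ2
  have l1 : (3 ^ d - 1) * (2 / 3 ^ d / 3 ^ (m + 1) * Lg) - ∑ i, KL i ≤
      ∑ i : {δ : Fin d → ZMod 3 // δ ≠ 0}, sm (WR h n π w0 c 1 1 0 ∩ Pat V i.1) σ +
      ∑ i : {δ : Fin d → ZMod 3 // δ ≠ 0}, sm (WR h n π w0 c 1 2 0 ∩ Pat V i.1) σ := by
    rw [← Finset.sum_add_distrib, ← hcard, ← nsmul_eq_mul, ← Finset.card_univ,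
      ← Finset.sum_const, ← Finset.sum_sub_distrib, hLg]
    exact Finset.sum_le_sum fun i _ => hKL i σ hσ hσ2
  rw [← hLg] at c0 ⊢
  unfold LS
  have e1 : (3 ^ d - 1 : ℝ) * (2 / 3 ^ d * LI (d - 1) (t - vv) / 3 ^ (m + 1) * Lg) =
      2 * ((1 - 1 / 3 ^ d) * LI (d - 1) (t - vv) / 3 ^ (m + 1) * Lg) := by
    field_simp
  have e2 : (3 ^ d - 1 : ℝ) * (2 / 3 ^ d / 3 ^ (m + 1) * Lg) =
      2 * ((1 - 1 / 3 ^ d) / 3 ^ (m + 1) * Lg) := by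
    field_simp
  have e3 : (1 / 3 ^ (m + 1) * Lg : ℝ) - (1 - 1 / 3 ^ d) / 3 ^ (m + 1) * Lg =
      1 / 3 ^ d / 3 ^ (m + 1) * Lg := by
    ring
  rw [e1] at u1
  rw [e2] at l1
  have k1 := le_abs_self (KC + (KB1 + KB2 + ∑ i, KL i) / 2)
  have k2 := abs_nonneg (KC + (KB1 + KB2 + ∑ i, KL i) / 2)
  rw [if_pos ht]
  have e4 : ((1 - 1 / 3 ^ d) * LI (d - 1) (t - vv) + 1 / 3 ^ d * 1) / 3 ^ (m + 1) * Lg =
      (1 - 1 / 3 ^ d) * LI (d - 1) (t - vv) / 3 ^ (m + 1) * Lg +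
        1 / 3 ^ d / 3 ^ (m + 1) * Lg := by
    ring
  rw [e4]
  linarith

end Pool.Agent.PTB
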